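import Mathlib
import Pool.Agent.N984.DI.Stm

set_option autoImplicit false

namespace Pool.Agent.N727.DI2

open Matrix Finset Pool.Agent.N984.DI
open scoped ComplexOrder

variable {ι : Type} [Fintype ι] [DecidableEq ι]

theorem spec (A : Matrix ι ι ℂ) (hA : A.PosSemidef) :
    ∃ U ∈ Matrix.unitaryGroup ι ℂ, ∃ x : ι → ℝ, (∀ i, 0 ≤ x i) ∧ A = dg U x := by
  refine ⟨hA.1.eigenvectorUnitary, (hA.1.eigenvectorUnitary).2, hA.1.eigenvalues, fun i => hA.eigenvalues_nonneg i, ?_⟩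
  have := hA.1.spectral_theorem
  rw [Unitary.conjStarAlgAut_apply] at this
  exact this

theorem dg_mul (U : Matrix ι ι ℂ) (hU : U ∈ Matrix.unitaryGroup ι ℂ) (x y : ι → ℝ) :
    dg U x * dg U y = dg U (fun i => x i * y i) := by
  unfold dg
  have h : Uᴴ * U = 1 := (Matrix.mem_unitaryGroup_iff').1 hU
  calc U * diagonal (fun i => (x i : ℂ)) * Uᴴ * (U * diagonal (fun i => (y i : ℂ)) * Uᴴ)
      = U * diagonal (fun i => (x i : ℂ)) * (Uᴴ * U) * diagonal (fun i => (y i : ℂ)) * Uᴴ := by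
        simp only [Matrix.mul_assoc]
    _ = U * (diagonal (fun i => (x i : ℂ)) * diagonal (fun i => (y i : ℂ))) * Uᴴ := by
        rw [h, Matrix.mul_one]; simp only [Matrix.mul_assoc]
    _ = _ := by
        rw [diagonal_mul_diagonal]
        simp

theorem dg_one (U : Matrix ι ι ℂ) (hU : U ∈ Matrix.unitaryGroup ι ℂ) : dg U (fun _ => 1) = 1 := by
  unfold dg
  have h : U * Uᴴ = 1 := (Matrix.mem_unitaryGroup_iff).1 hU
  simp [h]

theorem dg_psd (U : Matrix ι ι ℂ) (x : ι → ℝ) (hx : ∀ i, 0 ≤ x i) : (dg U x).PosSemidef := by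
  unfold dg
  have h : (diagonal (fun i => (x i : ℂ))).PosSemidef := by
    rw [Matrix.posSemidef_diagonal_iff]
    intro i
    exact_mod_cast hx i
  exact h.mul_mul_conjTranspose_same U

theorem dg_det (U : Matrix ι ι ℂ) (hU : U ∈ Matrix.unitaryGroup ι ℂ) (x : ι → ℝ) :
    (dg U x).det = ∏ i, (x i : ℂ) := by
  unfold dg
  have h : U * Uᴴ = 1 := (Matrix.mem_unitaryGroup_iff).1 hU
  rw [Matrix.det_mul, Matrix.det_mul, Matrix.det_diagonal]
  have h2 : U.det * (Uᴴ).det = 1 := by rw [← Matrix.det_mul, h, Matrix.det_one]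
  calc U.det * (∏ i, (x i : ℂ)) * (Uᴴ).det = (U.det * (Uᴴ).det) * ∏ i, (x i : ℂ) := by ring
    _ = _ := by rw [h2, one_mul]

variable (h0 : CFD)
include h0

theorem mpow_psd (A : Matrix ι ι ℂ) (hA : A.PosSemidef) (q : ℝ) : (mpow A q).PosSemidef := by
  obtain ⟨U, hU, x, hx, h⟩ := spec A hA
  unfold mpow
  rw [h, h0 ι U hU]
  exact dg_psd U _ fun i => Real.rpow_nonneg (hx i) q

theorem mpow_zero (A : Matrix ι ι ℂ) (hA : A.PosSemidef) : mpow A 0 = 1 := by
  obtain ⟨U, hU, x, hx, h⟩ := spec A hA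
  unfold mpow
  rw [h, h0 ι U hU]
  simp only [Real.rpow_zero]
  exact dg_one U hU

theorem rp (a p : ℝ) (ha : 0 ≤ a) (hp : 0 ≤ p) (hp2 : p ≤ 2) : a * a = a ^ p * a ^ (2 - p) := by
  rcases ha.eq_or_lt with h | h
  · rw [← h]
    rcases hp.eq_or_lt with h' | h'
    · rw [← h']
      norm_num
    · rw [Real.zero_rpow h'.ne']
      norm_num
  · rw [← Real.rpow_add h]
    have : p + (2 - p) = 2 := by ring
    rw [this, Real.rpow_two]
    ring

theorem sq_eq (A : Matrix ι ι ℂ) (hA : A.PosSemidef) (p : ℝ) (hp : 0 ≤ p) (hp2 : p ≤ 2) :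
    A * A = mpow A p * mpow A (2 - p) := by
  obtain ⟨U, hU, x, hx, h⟩ := spec A hA
  unfold mpow
  rw [h, h0 ι U hU, h0 ι U hU, dg_mul U hU, dg_mul U hU]
  congr 1
  funext i
  exact rp h0 (x i) p (hx i) hp hp2

theorem bab (n : ℕ) (A B : Matrix (Fin n) (Fin n) ℂ) (hA : A.PosSemidef) (hB : B.PosSemidef) :
    (A * B)ᴴ * (A * B) = B * (A * A) * B := by
  rw [conjTranspose_mul, hA.1.eq, hB.1.eq]
  simp only [Matrix.mul_assoc]

theorem bab_psd (n : ℕ) (A B : Matrix (Fin n) (Fin n) ℂ) (hA : A.PosSemidef) (hB : B.PosSemidef) :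
    (B * (A * A) * B).PosSemidef := by
  rw [← bab h0 n A B hA hB]
  exact Matrix.posSemidef_conjTranspose_mul_self _

theorem lhs_eq (n : ℕ) (A B : Matrix (Fin n) (Fin n) ℂ) (hA : A.PosSemidef) (p : ℝ) (hp : 0 ≤ p) (hp2 : p ≤ 2) :
    (A * A + mpow A p * mpow B p).det = (mpow A p).det * (mpow A (2 - p) + mpow B p).det := by
  rw [← Matrix.det_mul, Matrix.mul_add, ← sq_eq h0 A hA p hp hp2]

theorem t_ABS0 : ABS := by
  intro n A B hA hB p hp hp2
  constructor
  · rw [bab h0 n A B hA hB]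
    obtain ⟨U, hU, x, hx, h⟩ := spec _ (bab_psd h0 n A B hA hB)
    unfold mpow
    rw [h, h0 _ U hU, h0 _ U hU, h0 _ U hU]
    congr 1
    funext i
    rw [← Real.rpow_mul (hx i)]
    congr 1
    ring
  · rw [lhs_eq h0 n A B hA p hp hp2]
    exact mul_nonneg (mpow_psd h0 A hA p).det_nonneg
      ((mpow_psd h0 A hA (2 - p)).add (mpow_psd h0 B hB p)).det_nonneg

theorem t_SINA0 : SINA := by
  intro n A B hA hB p hp hp2 hor
  rcases hp.eq_or_lt with h | h
  · rw [← h]
    rw [mpow_zero h0 A hA, mpow_zero h0 B hB, zero_div, mpow_zero h0 _ (bab_psd h0 n A B hA hB), Matrix.one_mul]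
  · have hnA : ¬ A.PosDef := by
      rcases hor with h' | h'
      · exact h'
      · exact absurd h' h.ne'
    obtain ⟨U, hU, x, hx, e⟩ := spec A hA
    have hex : ∃ i, x i = 0 := by
      by_contra hne
      push Not at hne
      apply hnA
      have hdet : A.det ≠ 0 := by
        rw [e, dg_det U hU]
        rw [Finset.prod_ne_zero_iff]
        intro i _
        exact_mod_cast hne i
      exact hA.posDef_iff_det_ne_zero.2 hdet
    obtain ⟨i, hi⟩ := hex
    have hd : (mpow A p).det = 0 := by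
      unfold mpow
      rw [e, h0 _ U hU, dg_det U hU]
      apply Finset.prod_eq_zero (Finset.mem_univ i)
      rw [hi, Real.zero_rpow h.ne']
      simp
    rw [lhs_eq h0 n A B hA p hp hp2, hd, zero_mul]
    have hAA : (A * A).PosSemidef := by
      have := Matrix.posSemidef_conjTranspose_mul_self A
      rwa [hA.1.eq] at this
    exact (hAA.add (mpow_psd h0 _ (bab_psd h0 n A B hA hB) _)).det_nonneg

theorem t_ABS (_h1 : SPD) : ABS := t_ABS0 h0

theorem t_SINA (_h1 : SPD) : SINA := t_SINA0 h0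

end Pool.Agent.N727.DI2
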