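import Mathlib
import Pool.Agent.N984.DI.Stm

set_option autoImplicit false

namespace Pool.Agent.N727.DI3

open Matrix Finset Pool.Agent.N984.DI
open scoped ComplexOrder

theorem t_SPD : SPD := by
  intro n X hX
  have hs := hX.spectral_theorem
  rw [Unitary.conjStarAlgAut_apply] at hs
  obtain ⟨U, hUm, x, hs⟩ : ∃ U ∈ Matrix.unitaryGroup (Fin n) ℂ, ∃ x : Fin n → ℝ, X = dg U x :=
    ⟨(hX.eigenvectorUnitary : Matrix (Fin n) (Fin n) ℂ), (hX.eigenvectorUnitary).2, hX.eigenvalues, hs⟩
  set σ : Equiv.Perm (Fin n) := Tuple.sort (fun i => -x i) with hσ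
  have hm : Monotone ((fun i => -x i) ∘ σ) := Tuple.monotone_sort _
  refine ⟨U.submatrix id σ, ?_, x ∘ σ, ?_, ?_⟩
  · rw [Matrix.mem_unitaryGroup_iff']
    have h1 : star (U.submatrix id σ) * U.submatrix id σ = (star U * U).submatrix σ σ := by
      ext i j
      simp [Matrix.mul_apply, Matrix.star_eq_conjTranspose, Matrix.conjTranspose_apply]
    rw [h1, (Matrix.mem_unitaryGroup_iff').1 hUm]
    exact Matrix.submatrix_one_equiv σ
  · intro i j hij
    have := hm hij
    simp only [Function.comp] at this ⊢
    linarith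
  · have h2 : dg (U.submatrix id σ) (x ∘ σ) = dg U x := by
      unfold dg
      ext i j
      simp only [Matrix.mul_apply, Matrix.submatrix_apply, id, Matrix.diagonal_apply,
        Matrix.conjTranspose_apply, Function.comp]
      simp only [mul_ite, mul_zero, Finset.sum_ite_eq', Finset.mem_univ, if_true]
      exact Equiv.sum_comp σ (fun k => U i k * (x k : ℂ) * star (U j k))
    rw [h2]
    exact hs

end Pool.Agent.N727.DI3
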